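import Mathlib
import Pool.Agent.MP_ba99b7_an.Defs
import Pool.Agent.MP_ba99b7_an.Main
import Pool.Agent.MP_ba99b7_an.Wb

namespace Pool.Agent.Results.MP_ba99b7_an.Strichartz

open Pool.Agent.MP_ba99b7_an MeasureTheory
open scoped Manifold ContDiff ENNReal NNReal

theorem result (E : Type) [NormedAddCommGroup E] [NormedSpace ℝ E] [FiniteDimensional ℝ E]
    [CompleteSpace E]
    (G : Type) [Group G] [TopologicalSpace G] [ChartedSpace E G] [LieGroup 𝓘(ℝ, E) ∞ G]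
    [LieGroup 𝓘(ℝ, E) (minSmoothness ℝ 3) G] [T2Space G] [CompactSpace G] [ConnectedSpace G]
    [MeasurableSpace G] [BorelSpace G] (μ : Measure G) [μ.IsHaarMeasure]
    (hss : LieAlgebra.IsSemisimple ℝ (GroupLieAlgebra 𝓘(ℝ, E) G))
    (σ : G →* G) (hσ : ContMDiff 𝓘(ℝ, E) 𝓘(ℝ, E) ∞ σ) (hσσ : ∀ g, σ (σ g) = g)
    (K : Subgroup G) (hKc : IsClosed (K : Set G))
    (hK1 : connectedComponentIn {g | σ g = g} 1 ⊆ K) (hK2 : ∀ k ∈ K, σ k = k)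
    (d : ℕ) (b : Fin d → GroupLieAlgebra 𝓘(ℝ, E) G)
    (hb : ∀ i j,
      -killingForm ℝ (GroupLieAlgebra 𝓘(ℝ, E) G) (b i) (b j) = if i = j then 1 else 0)
    (hsp : (Submodule.span ℝ (Set.range b) : Set (GroupLieAlgebra 𝓘(ℝ, E) G)) = pPart E σ)
    (r : ℕ) (hr : IsGreatest {n | ∃ a : Submodule ℝ (GroupLieAlgebra 𝓘(ℝ, E) G),
      (a : Set (GroupLieAlgebra 𝓘(ℝ, E) G)) ⊆ pPart E σ ∧ (∀ X ∈ a, ∀ Y ∈ a, ⁅X, Y⁆ = 0) ∧
        Module.finrank ℝ a = n} r) (hr1 : 1 ≤ r)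
    (I : Set ℝ) (hI : Bornology.IsBounded I) (p : ℝ) (hp : 2 + 4 / (r : ℝ) < p) :
    ∃ C : ℝ≥0, ∀ f : G → ℂ, IsFn E K f → ∃ (φ : ℝ → G → ℂ) (u : ℝ × G → ℂ),
      (∀ l g, IsProj E μ K b l f g ↔ g = φ l) ∧
      (∀ (t : ℝ) (x : G),
        HasSum (fun l : ℝ => Complex.exp (-(Complex.I * t * l)) * φ l x) (u (t, x))) ∧
      (∀ x, u (0, x) = f x) ∧ Continuous u ∧
      eLpNorm u (ENNReal.ofReal p) ((volume.restrict I).prod μ) ≤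
        C * (∑' l : ℝ, ENNReal.ofReal ((1 + l) ^ ((d : ℝ) / 2 - (d + 2) / p))
          * eLpNorm (φ l) 2 μ ^ 2) ^ (1 / 2 : ℝ) := by
  obtain ⟨C, hC⟩ := main_of_wb wb_stmt E G μ hss σ hσ hσσ K hKc hK1 hK2 d b hb hsp r hr hr1 I hI p hp
  refine ⟨C, fun f hf => ?_⟩
  obtain ⟨φ, u, h1, h2⟩ := hC f hf
  exact ⟨φ, u, fun l g => ⟨fun h => h.unique hf.1.continuous (h1 l), fun h => h ▸ h1 l⟩, h2⟩

end Pool.Agent.Results.MP_ba99b7_an.Strichartz
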